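import Pool.Agent.Run7.h189.MB.Inner

/-!
# MP_d967a3_an, Q1: billiard tables of `ℝⁿ`, `n ≥ 3`, other than ellipsoids, whose billiard map has invariant
hypersurfaces

The definitions used by the statement (`Euc`, `IsTable`, `IsOuterNormal`, `outerNormal`, `IsEllipsoid`, `lines`,
`lineTangent`, `lineThrough`, `exitPoint`, `billiardMap`, `IsInvariantHypersurface`) are in
`Pool/Agent/H703R3/MBDefs.lean`.

The table is `‖x‖² + x₂⁴ ≤ 1`; it is invariant under the rotations of the plane of `x₀` and `x₁`, so that the
angular momentum `p₀ v₁ - p₁ v₀` of the oriented line `(p, v)` is preserved by the billiard map, and the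
hypersurface `S c` is the set of the lines of angular momentum `c`.
-/

set_option autoImplicit false

namespace Pool.Agent.Results.MP_d967a3_an.InnerHypersurface

open Pool.Agent.H703R3.MB

/-- For every `n ≥ 3` there is a billiard table in `ℝⁿ` (a compact convex domain with smooth, strictly convex
boundary) that is not an ellipsoid and whose billiard map has invariant hypersurfaces `S c`, `0 < c < 1`, in the
space of the oriented lines which meet its interior; they are pairwise disjoint. -/
theorem result : ∀ n : ℕ, 3 ≤ n → ∃ Ω : Set (Euc n), IsTable Ω ∧ ¬ IsEllipsoid Ω ∧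
    ∃ S : ℝ → Set (Euc n × Euc n), (∀ c : ℝ, 0 < c → c < 1 → IsInvariantHypersurface Ω (S c)) ∧
      ∀ c c' : ℝ, c ≠ c' → Disjoint (S c) (S c') :=
  Pool.Agent.Run7.h189.MB.q1

end Pool.Agent.Results.MP_d967a3_an.InnerHypersurface
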